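import Pool.Agent.Helper95.C2.Spec
import Pool.Graph.R_pool_sql_team_seeded_f72693b1.W269.BL.RED
import Pool.Graph.R_pool_sql_team_seeded_f72693b1.W269.BL.CNT
import Pool.Graph.R_pool_sql_team_seeded_f72693b1.W691.BL.ENUM

set_option autoImplicit false

/-! # C2, parts MAIN2 and ENUM2 (after the library parts `W20.BL.MAIN`, `W691.BL.ENUM`) -/

open Polynomial

namespace Pool.Agent.Helper95.C2.MAIN2

open Pool.Agent.Helper95.C2

universe u

/-- after multiplication by a new prime no difference of the forms is a square -/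
lemma gamma_ne {K : Type u} [Field K] [Fintype K] {A₁ A₂ ϖ : K[X]} {b₁ b₂ : K}
    (hϖ : Irreducible ϖ) (h1 : ¬ ϖ ∣ A₁) (h2 : ¬ ϖ ∣ A₂) (h3 : ¬ ϖ ∣ C b₂ * A₁ - C b₁ * A₂) :
    C b₂ * derivative (ϖ * A₂) * (ϖ * A₁) ^ 2 ≠ C b₁ * derivative (ϖ * A₁) * (ϖ * A₂) ^ 2 := by
  intro h
  have hp : Prime ϖ := hϖ.prime
  have h0 : ϖ ^ 2 ≠ 0 := pow_ne_zero 2 hϖ.ne_zero
  have e1 : ϖ ^ 2 * (C b₂ * derivative (ϖ * A₂) * A₁ ^ 2) =
      ϖ ^ 2 * (C b₁ * derivative (ϖ * A₁) * A₂ ^ 2) := by linear_combination h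
  have e2 := mul_left_cancel₀ h0 e1
  rw [derivative_mul, derivative_mul] at e2
  have e3 : ϖ ∣ derivative ϖ * (A₁ * A₂ * (C b₂ * A₁ - C b₁ * A₂)) :=
    ⟨C b₁ * derivative A₁ * A₂ ^ 2 - C b₂ * derivative A₂ * A₁ ^ 2, by linear_combination e2⟩
  rcases hp.dvd_or_dvd e3 with e | e
  · have hs : IsCoprime ϖ (derivative ϖ) := PerfectField.separable_of_irreducible hϖ
    exact hϖ.not_isUnit (hs.isUnit_of_dvd' dvd_rfl e)
  · rcases hp.dvd_or_dvd e with e | e
    · rcases hp.dvd_or_dvd e with e | e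
      · exact h1 e
      · exact h2 e
    · exact h3 e

theorem main (hcore : S_CORE2.{u}) (hirr : S_IRR.{u}) : S_MAIN2.{u} := by
  intro K _ _ _ n A B hA hAB ε hε
  classical
  obtain ⟨F₁, T₀, hT₀, hs⟩ := Pool.Agent.W269.BL.RED.main K n A B hA hAB
  choose A' b e h1 h2 h3 h4 h5 h6 using hs
  obtain ⟨f1, hf1⟩ : ∃ f1 : ℕ → K[X], f1 = fun s => ∏ j, A' s j := ⟨_, rfl⟩
  obtain ⟨f3, hf3⟩ : ∃ f3 : ℕ → Fin n × Fin n → K[X], f3 = fun s p =>
      C (b s p.2) * A' s p.1 - C (b s p.1) * A' s p.2 := ⟨_, rfl⟩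
  obtain ⟨f2, hf2⟩ : ∃ f2 : ℕ → K[X], f2 = fun s => ∏ p ∈ Finset.univ.filter
      (fun p : Fin n × Fin n => p.1 ≠ p.2), f3 s p := ⟨_, rfl⟩
  obtain ⟨V, hVd⟩ : ∃ V : K[X], V = (∏ s ∈ Finset.range 8, f1 s) * ∏ s ∈ Finset.range 8, f2 s :=
    ⟨_, rfl⟩
  have hV : V ≠ 0 := by
    rw [hVd]
    refine mul_ne_zero ?_ ?_
    · rw [Finset.prod_ne_zero_iff]
      intro s _
      rw [hf1]
      exact Finset.prod_ne_zero_iff.2 fun j _ => (h1 s j).ne_zero
    · rw [Finset.prod_ne_zero_iff]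
      intro s _
      rw [hf2, hf3]
      refine Finset.prod_ne_zero_iff.2 fun p hp => ?_
      exact sub_ne_zero.2 (h3 s p.1 p.2 (Finset.mem_filter.1 hp).2)
  have hd1 : ∀ s < 8, f1 s ∣ V := by
    intro s hs
    rw [hVd]
    exact (Finset.dvd_prod_of_mem f1 (Finset.mem_range.2 hs)).mul_right _
  have hd2 : ∀ s < 8, f2 s ∣ V := by
    intro s hs
    rw [hVd]
    exact (Finset.dvd_prod_of_mem f2 (Finset.mem_range.2 hs)).mul_left _
  obtain ⟨P, hP, -⟩ := hirr K 1 V hV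
  obtain ⟨ϖ, hϖ⟩ : ∃ ϖ : K[X], ϖ = P 0 := ⟨_, rfl⟩
  obtain ⟨hϖm, hϖi, -, hϖV⟩ := hP 0
  rw [← hϖ] at hϖm hϖi hϖV
  have hϖA : ∀ s < 8, ∀ j, ¬ ϖ ∣ A' s j := by
    intro s hs j h
    refine hϖV (h.trans (Dvd.dvd.trans ?_ (hd1 s hs)))
    rw [hf1]
    exact Finset.dvd_prod_of_mem (A' s) (Finset.mem_univ j)
  have hϖΓ : ∀ s < 8, ∀ i j, i ≠ j → ¬ ϖ ∣ C (b s j) * A' s i - C (b s i) * A' s j := by
    intro s hs i j hij h
    refine hϖV (h.trans (Dvd.dvd.trans ?_ (hd2 s hs)))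
    have h' : f3 s (i, j) = C (b s j) * A' s i - C (b s i) * A' s j := by rw [hf3]
    rw [hf2, ← h']
    exact Finset.dvd_prod_of_mem (f3 s) (Finset.mem_filter.2 ⟨Finset.mem_univ (i, j), hij⟩)
  set T : K[X] := T₀ * ϖ with hTd
  have hT : T.Monic := hT₀.mul hϖm
  have hc : ∀ s : ℕ, ∃ G₀ S h₀ : K[X], s < 8 → (S.Monic ∧ ∀ h : K[X], h.Monic → S ∣ h - h₀ →
      G₀.natDegree < 8 * h.natDegree →
      ∀ j, ϖ * A' s j * (G₀ + h ^ 8) + C (b s j) ≠ 0 ∧
        lam (ϖ * A' s j * (G₀ + h ^ 8) + C (b s j)) = ε j * e s j) := by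
    intro s
    by_cases hs : s < 8
    · obtain ⟨G₀, S, h₀, hh⟩ := hcore K n (fun j => ϖ * A' s j) (b s) (fun j => ε j * e s j)
        (fun j => hϖm.mul (h1 s j)) (h2 s)
        (fun i j hij => gamma_ne hϖi (hϖA s hs i) (hϖA s hs j) (hϖΓ s hs i j hij))
        (fun Q hQ hQn j => (h4 s Q hQ hQn j).mul_left _)
        (fun j => by
          rcases hε j with h | h <;> rcases h5 s j with h' | h' <;> simp [h, h'])
      exact ⟨G₀, S, h₀, fun _ => hh⟩
    · exact ⟨0, 0, 0, fun h => absurd h hs⟩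
  choose G₀ S h₀ hG using hc
  obtain ⟨M, hM⟩ : ∃ M : ℕ, ∀ s < 8, (G₀ s).natDegree + (S s).natDegree ≤ M := by
    refine ⟨∑ s ∈ Finset.range 8, ((G₀ s).natDegree + (S s).natDegree), ?_⟩
    intro s hs
    exact Finset.single_le_sum (f := fun s => ((G₀ s).natDegree + (S s).natDegree))
      (fun i _ => Nat.zero_le _) (Finset.mem_range.2 hs)
  refine ⟨M + F₁.natDegree + T.natDegree + 1, ?_⟩
  intro N m hN
  set t := T.natDegree with ht
  set f := F₁.natDegree with hf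
  set s := (N - t) % 8 with hsd
  set m' := (N - t) / 8 with hm'
  have hdiv : 8 * m' + s = N - t := Nat.div_add_mod (N - t) 8
  have hs : s < 8 := Nat.mod_lt _ (by norm_num)
  have hm'' : m + M + f + 1 ≤ m' := by omega
  have hMM := hM s hs
  obtain ⟨hS, hG'⟩ := hG s hs
  -- the class
  have hcount := Pool.Agent.W269.BL.CNT.main K (S s) (h₀ s) hS m' (by omega)
  have hq : Fintype.card K ^ m ≤ Fintype.card K ^ (m' - (S s).natDegree) :=
    Nat.pow_le_pow_right Fintype.card_pos (by omega)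
  refine le_trans hq (le_trans hcount ?_)
  have hfin : {F : K[X] | F.Monic ∧ F.natDegree = N ∧
        ∀ j, A j * F + B j ≠ 0 ∧ lam (A j * F + B j) = ε j}.Finite := by
    refine Set.Finite.subset (s := (Polynomial.degreeLT K (N + 1) : Set K[X])) ?_ ?_
    · have : Finite (Polynomial.degreeLT K (N + 1)) :=
        Finite.of_equiv _ (Polynomial.degreeLTEquiv K (N + 1)).symm.toEquiv
      exact Set.toFinite _
    · rintro F ⟨hF, hFN, -⟩
      rw [SetLike.mem_coe, Polynomial.mem_degreeLT]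
      refine lt_of_le_of_lt Polynomial.degree_le_natDegree ?_
      rw [hFN]
      exact_mod_cast Nat.lt_succ_self N
  refine Set.ncard_le_ncard_of_injOn (fun h => F₁ + X ^ s * T * (G₀ s + h ^ 8)) ?_ ?_ hfin
  · rintro h ⟨hm, hd, hdv⟩
    have key := hG' h hm hdv (by rw [hd]; omega)
    have hhp : (h ^ 8).Monic := hm.pow 8
    have hhpd : (h ^ 8).natDegree = 8 * m' := by rw [hm.natDegree_pow, hd]
    have hlt : (G₀ s).degree < (h ^ 8).degree := by
      apply Polynomial.degree_lt_degree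
      rw [hhpd]; omega
    have hGm : (G₀ s + h ^ 8).Monic := hhp.add_of_right hlt
    have hGd : (G₀ s + h ^ 8).natDegree = 8 * m' := by
      rw [Polynomial.natDegree_add_eq_right_of_degree_lt hlt, hhpd]
    have hXT : (X ^ s * T : K[X]).Monic := (monic_X_pow s).mul hT
    have hXTd : (X ^ s * T : K[X]).natDegree = s + t := by
      rw [(monic_X_pow s).natDegree_mul hT, natDegree_X_pow]
    have hXG : (X ^ s * T * (G₀ s + h ^ 8)).Monic := hXT.mul hGm
    have hXGd : (X ^ s * T * (G₀ s + h ^ 8)).natDegree = N := by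
      rw [hXT.natDegree_mul hGm, hXTd, hGd]; omega
    have hlt2 : F₁.degree < (X ^ s * T * (G₀ s + h ^ 8)).degree := by
      apply Polynomial.degree_lt_degree
      rw [hXGd]; omega
    refine ⟨hXG.add_of_right hlt2, ?_, ?_⟩
    · show (F₁ + X ^ s * T * (G₀ s + h ^ 8)).natDegree = N
      rw [Polynomial.natDegree_add_eq_right_of_degree_lt hlt2, hXGd]
    · intro j
      obtain ⟨k1, k2⟩ := key j
      have ef : A' s j * (ϖ * (G₀ s + h ^ 8)) + C (b s j) =
          ϖ * A' s j * (G₀ s + h ^ 8) + C (b s j) := by ring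
      obtain ⟨k3, k4⟩ := h6 s (ϖ * (G₀ s + h ^ 8)) j (by rw [ef]; exact k1)
      have eF : F₁ + X ^ s * T₀ * (ϖ * (G₀ s + h ^ 8)) = F₁ + X ^ s * T * (G₀ s + h ^ 8) := by
        rw [hTd]; ring
      rw [eF] at k3 k4
      refine ⟨k3, ?_⟩
      show lam (A j * (F₁ + X ^ s * T * (G₀ s + h ^ 8)) + B j) = ε j
      have k5 : lam (A j * (F₁ + X ^ s * T * (G₀ s + h ^ 8)) + B j) =
          e s j * lam (A' s j * (ϖ * (G₀ s + h ^ 8)) + C (b s j)) := k4
      rw [k5, ef, k2]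
      rcases h5 s j with h' | h' <;> simp [h']
  · intro a ha a' ha' haa
    simp only [add_right_inj] at haa
    have hne : (X ^ s * T : K[X]) ≠ 0 := ((monic_X_pow s).mul hT).ne_zero
    have h7 := mul_left_cancel₀ hne haa
    rw [add_right_inj] at h7
    have h8 : (a - a') ^ (2 ^ 3) = 0 := by
      rw [sub_pow_char_pow]
      norm_num [h7]
    have h9 := (pow_eq_zero_iff (by norm_num)).1 h8
    exact sub_eq_zero.1 h9

theorem enum (hM : S_MAIN2.{u}) : S_ENUM2.{u} := by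
  intro K _ _ _ e he n ε hε M
  have hq : 0 < Fintype.card K := Fintype.card_pos
  have hns : n < Fintype.card K ^ n := Nat.lt_pow_self Pool.Agent.W691.BL.ENUM.two_le
  obtain ⟨r, hr⟩ := hM K n (fun _ => X ^ n) (fun j => Pool.Agent.W269.BL.phi e (j + 1))
    (fun _ => pow_ne_zero _ X_ne_zero) (by
      intro i j hij h
      apply hij
      have h1 := mul_left_cancel₀ (pow_ne_zero n X_ne_zero) h
      have h2 := Pool.Agent.W691.BL.ENUM.phi_inj e he h1
      exact Fin.ext (by omega)) ε hε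
  have h1 := hr (max (8 * r) M) 0 (by rw [zero_add]; exact le_max_left _ _)
  rw [pow_zero] at h1
  obtain ⟨F, hF1, hF2, hF3⟩ := Set.nonempty_of_ncard_ne_zero (by omega : {F : K[X] | F.Monic ∧
    F.natDegree = max (8 * r) M ∧ ∀ j : Fin n,
      X ^ n * F + Pool.Agent.W269.BL.phi e (j + 1) ≠ 0 ∧
      lam (X ^ n * F + Pool.Agent.W269.BL.phi e (j + 1)) = ε j}.ncard ≠ 0)
  obtain ⟨t, ht⟩ := Pool.Agent.W691.BL.ENUM.phi_surj e he (F.natDegree + 1) F (by
    rw [degree_eq_natDegree hF1.ne_zero]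
    exact_mod_cast Nat.lt_succ_self _)
  have h2 : Fintype.card K ^ F.natDegree ≤ t := by
    by_contra hcon
    have h3 := Pool.Agent.W691.BL.ENUM.dig_zero e he (not_le.1 hcon)
    rw [← Pool.Agent.W691.BL.ENUM.coeff_phi e he, ht, coeff_natDegree, hF1.leadingCoeff] at h3
    exact one_ne_zero h3
  refine ⟨Fintype.card K ^ n * t, ?_, fun j => ?_⟩
  · have h3 : F.natDegree < Fintype.card K ^ F.natDegree :=
      Nat.lt_pow_self Pool.Agent.W691.BL.ENUM.two_le
    have h4 : M ≤ F.natDegree := by rw [hF2]; exact le_max_right _ _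
    have h5 : t ≤ Fintype.card K ^ n * t := Nat.le_mul_of_pos_left t (Nat.pow_pos hq)
    omega
  · have h3 : Fintype.card K ^ n * t + 1 + (j : ℕ) = Fintype.card K ^ n * t + ((j : ℕ) + 1) := by
      ring
    rw [h3, Pool.Agent.W691.BL.ENUM.phi_split e he n t _ (by have := j.2; omega), ht]
    exact (hF3 j).2

end Pool.Agent.Helper95.C2.MAIN2
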