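import Pool.Agent.Helper95.C2.CORE2
import Pool.Agent.Helper95.C2.MAIN2
import Pool.Agent.Helper33.C2.HEN
import Pool.Agent.Helper33.C2.FRB
import Pool.Agent.Helper31.C2.SGN
import Pool.Agent.Helper46.C2.CNG
import Pool.Agent.Helper46.C2.VAR
import Pool.Agent.Helper46.C2.ETA
import Pool.Agent.Helper46.C2.IRR
import Pool.Agent.Helper51.C2.NRM
import Pool.Agent.Helper51.C2.PAR
import Pool.Agent.Helper54.C2.AVD
import Pool.Agent.Helper54.C2.CRT
import Pool.Agent.Helper54.C2.MST
import Pool.Agent.Helper85.C2.TOG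

set_option autoImplicit false

/-! # C2, assembly (all parts except TRC) -/

namespace Pool.Agent.Helper95.C2.Assembly

open Pool.Agent.Helper95.C2

universe u

theorem core2 (hT : S_TRC.{u}) : S_CORE2.{u} :=
  CORE2.main Pool.Agent.Helper54.C2.crt Pool.Agent.Helper54.C2.mst Pool.Agent.Helper54.C2.avd
    Pool.Agent.Helper46.C2.IRR.main Pool.Agent.Helper46.C2.ETA.main
    (Pool.Agent.Helper85.C2.main
      (Pool.Agent.Helper51.C2.PAR.main
        (Pool.Agent.Helper33.C2.FRB.main Pool.Agent.Helper33.C2.HEN.main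
          Pool.Agent.Helper31.C2.SGN.main))
      hT Pool.Agent.Helper51.C2.NRM.main Pool.Agent.Helper46.C2.CNG.main
      Pool.Agent.Helper46.C2.VAR.main)

theorem main2 (hT : S_TRC.{u}) : S_MAIN2.{u} :=
  MAIN2.main (core2 hT) Pool.Agent.Helper46.C2.IRR.main

theorem enum2 (hT : S_TRC.{u}) : S_ENUM2.{u} := MAIN2.enum (main2 hT)

end Pool.Agent.Helper95.C2.Assembly
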