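import Pool.Agent.Helper95.C2.Spec

set_option autoImplicit false

/-! # C2, part CORE2 -/

open Polynomial

namespace Pool.Agent.Helper95.C2.CORE2

open Pool.Agent.Helper95.C2

universe u

section lifts
variable (K : Type u) [Field K] [CharP K 2]

lemma unit_of_red [PerfectRing K 2] {x : S8 K} (hx : red K x ≠ 0) : IsUnit x := by
  obtain ⟨y, hy⟩ := red_surjective K (red K x)⁻¹
  have h1 : red K (x * y - 1) = 0 := by
    rw [map_sub, map_mul, hy, mul_inv_cancel₀ hx, map_one, sub_self]
  obtain ⟨t, ht⟩ := (red_eq_zero_iff K _).1 h1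
  have h8 := eight_S8 K
  have h2 : x * y = 1 + 2 * t := by linear_combination ht
  refine IsUnit.of_mul_eq_one (y * (1 - 2 * t + 4 * t ^ 2)) ?_
  calc x * (y * (1 - 2 * t + 4 * t ^ 2)) = (x * y) * (1 - 2 * t + 4 * t ^ 2) := by ring
    _ = 1 + 8 * t ^ 3 := by rw [h2]; ring
    _ = 1 := by rw [h8]; ring

lemma exists_monic_lift {f : K[X]} (hf : f.Monic) :
    ∃ F : (S8 K)[X], F.map (red K) = f ∧ F.natDegree = f.natDegree ∧ F.Monic := by
  apply lifts_and_natDegree_eq_and_monic _ hf
  rw [lifts_iff_coeff_lifts]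
  intro n
  exact red_surjective K _

end lifts

lemma lam_pm {K : Type u} [Field K] (F : K[X]) : lam F = 1 ∨ lam F = -1 :=
  neg_one_pow_eq_or ℤ _

lemma tr2_add {R : Type u} [CommRing R] [CharP R 2] (m : ℕ) (u v : R) :
    tr2 m (u + v) = tr2 m u + tr2 m v := by
  unfold tr2
  rw [← Finset.sum_add_distrib]
  refine Finset.sum_congr rfl fun i _ => ?_
  exact add_pow_char_pow u v 2 i

/-- the choice of the classes -/
lemma exists_class {K : Type u} [Field K] (n : ℕ) (U : K[X]) (P : Fin n → K[X])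
    (hUP : ∀ j, IsCoprime U (P j)) (hPP : ∀ i j, i ≠ j → IsCoprime (P i) (P j))
    (h₀ : K[X]) (x : Fin n → K[X]) :
    ∃ h : K[X], U ∣ h - h₀ ∧ ∀ j, P j ∣ h - x j := by
  classical
  let I : Option (Fin n) → Ideal K[X] := fun o => o.elim (Ideal.span {U}) (fun j => Ideal.span {P j})
  let g : Option (Fin n) → K[X] := fun o => o.elim h₀ x
  have hI : Pairwise (Function.onFun IsCoprime I) := by
    intro i j hij
    rcases i with _ | i <;> rcases j with _ | j
    · exact absurd rfl hij
    · exact (Ideal.isCoprime_span_singleton_iff _ _).2 (hUP j)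
    · exact ((Ideal.isCoprime_span_singleton_iff _ _).2 (hUP i)).symm
    · exact (Ideal.isCoprime_span_singleton_iff _ _).2 (hPP i j (fun h => hij (by rw [h])))
  obtain ⟨r, hr⟩ := Ideal.exists_forall_sub_mem_ideal hI g
  refine ⟨r, ?_, fun j => ?_⟩
  · exact Ideal.mem_span_singleton.1 (hr none)
  · exact Ideal.mem_span_singleton.1 (hr (some j))

/-- squarefreeness from coprimality with `M` -/
lemma squarefree_of {K : Type u} [Field K] {A L M : K[X]} (hM : A * derivative L -
    derivative A * L = M) (hc : IsCoprime M L) : Squarefree L := by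
  rintro x ⟨c, hx⟩
  have h1 : x ∣ L := ⟨x * c, by rw [hx]; ring⟩
  have h2 : x ∣ derivative L := by
    rw [hx]
    simp only [derivative_mul]
    exact ⟨derivative x * c + derivative x * c + x * derivative c, by ring⟩
  have h3 : x ∣ M := by
    rw [← hM]
    exact dvd_sub (h2.mul_left _) (h1.mul_left _)
  exact hc.isUnit_of_dvd' h3 h1

theorem main (hCRT : S_CRT.{u}) (hMST : S_MST.{u}) (hAVD : S_AVD.{u}) (hIRR : S_IRR.{u})
    (hETA : S_ETA.{u}) (hTOG : S_TOG.{u}) : S_CORE2.{u} := by
  intro K _ _ _ n A b ε hA hb hΓ hQ hε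
  classical
  obtain ⟨m, hm⟩ : ∃ m, Fintype.card K = 2 ^ m := by
    obtain ⟨k, -, h⟩ := FiniteField.card K 2
    exact ⟨k, h⟩
  set Γ : Fin n × Fin n → K[X] := fun p =>
    C (b p.2) * derivative (A p.2) * (A p.1) ^ 2 - C (b p.1) * derivative (A p.1) * (A p.2) ^ 2
    with hΓd
  set V : K[X] := (∏ j, A j) * ∏ p ∈ Finset.univ.filter (fun p : Fin n × Fin n => p.1 ≠ p.2), Γ p
    with hVd
  have hV : V ≠ 0 := by
    refine mul_ne_zero ?_ ?_
    · rw [Finset.prod_ne_zero_iff]
      exact fun j _ => (hA j).ne_zero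
    · rw [Finset.prod_ne_zero_iff]
      intro p hp
      exact sub_ne_zero.2 (hΓ p.1 p.2 (Finset.mem_filter.1 hp).2)
  obtain ⟨P, hP, hPinj⟩ := hIRR K n V hV
  have hPA : ∀ j i, ¬ P j ∣ A i := fun j i h => (hP j).2.2.2
    ((h.trans (Finset.dvd_prod_of_mem A (Finset.mem_univ i))).trans (Dvd.intro _ rfl))
  have hPΓ : ∀ l i j, i ≠ j → ¬ P l ∣ Γ (i, j) := fun l i j hij h => (hP l).2.2.2
    ((h.trans (Finset.dvd_prod_of_mem Γ (Finset.mem_filter.2 ⟨Finset.mem_univ (i, j), hij⟩))).trans
      (Dvd.intro_left _ rfl))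
  -- lifts
  choose At hAt hAtd hAtm using fun j => exists_monic_lift K (hA j)
  choose ϖ hϖ hϖd hϖm using fun j => exists_monic_lift K (hP j).1
  choose bt hbt using fun j => red_surjective K (b j)
  have hbtu : ∀ j, IsUnit (bt j) := fun j => unit_of_red K (by rw [hbt]; exact hb j)
  obtain ⟨G, hGm, -, hGo, hGd⟩ := hCRT (S8 K) K (red K) (red_surjective K) (eight_S8 K)
    (fun x hx => (red_eq_zero_iff K x).1 hx) n At ϖ bt hϖm
    (fun j => by rw [hϖ]; exact (hP j).2.1)
    (fun i j hij => by rw [hϖ, hϖ]; exact fun h => hij (hPinj h))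
    (fun j => by rw [hϖ, hAt]; exact hPA j j) 0
  have hM := fun j => hMST (S8 K) K (red K) (eight_S8 K) (At j) G (ϖ j) (bt j) (hAtm j) hGm hGo
    (hϖm j) (by rw [hϖ]; exact (hP j).2.1) (by rw [hϖ, hAt]; exact hPA j j) (hGd j)
  choose μ Mr hμ hMrm hMeq hd0 hd4 hnd using hM
  set G₀ := G.map (red K) with hG₀
  set Mb : Fin n → K[X] := fun j => (Mr j).map (red K) with hMb
  have hMbm : ∀ j, (Mb j).Monic := fun j => (hMrm j).map _
  have h2K : (2 : K) = 0 := CharP.cast_eq_zero K 2
  have h2X : (2 : K[X]) = 0 := by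
    have : (2 : K[X]) = C (2 : K) := (map_ofNat C 2).symm
    rw [this, h2K, C_0]
  -- the equation modulo 2
  have hMeq' : ∀ j, (A j) ^ 2 * derivative G₀ - C (b j) * derivative (A j) =
      C (red K (μ j)) * (P j * P j * Mb j) := by
    intro j
    have h := congrArg (Polynomial.map (red K)) (hMeq j)
    simp only [Polynomial.map_sub, Polynomial.map_mul, Polynomial.map_pow, map_C,
      Polynomial.map_add, ← derivative_map, hAt, hϖ, hbt] at h
    have h2 : (Polynomial.map (red K) (2 : (S8 K)[X])) = 0 := by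
      rw [Polynomial.map_ofNat]; exact h2X
    rw [h2, add_zero] at h
    exact h
  -- special primes and `Mb`
  have hPnd : ∀ j, ¬ P j ∣ Mb j := fun j h => hnd j (by rw [hϖ]; exact h)
  have hPprime : ∀ j, Prime (P j) := fun j => (hP j).2.1.prime
  have hPMb : ∀ l j, ¬ P l ∣ Mb j := by
    intro l j h
    by_cases hlj : l = j
    · subst hlj; exact hPnd l h
    · -- `P l` divides both `M l` and `M j`
      have h1 : P l ∣ (A j) ^ 2 * derivative G₀ - C (b j) * derivative (A j) := by
        rw [hMeq' j]; exact (h.mul_left _).mul_left _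
      have h2 : P l ∣ (A l) ^ 2 * derivative G₀ - C (b l) * derivative (A l) := by
        rw [hMeq' l]; exact ⟨C (red K (μ l)) * (P l * Mb l), by ring⟩
      refine hPΓ l l j hlj ?_
      have h3 := dvd_sub (h2.mul_left ((A j) ^ 2)) (h1.mul_left ((A l) ^ 2))
      have h4 : Γ (l, j) = (A j) ^ 2 * ((A l) ^ 2 * derivative G₀ - C (b l) * derivative (A l)) -
          (A l) ^ 2 * ((A j) ^ 2 * derivative G₀ - C (b j) * derivative (A j)) := by
        rw [hΓd]; ring
      rw [h4]; exact h3
  set U : K[X] := ∏ j, Mb j with hUd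
  have hUm : U.Monic := monic_prod_of_monic _ _ fun j _ => hMbm j
  have hMbU : ∀ j, Mb j ∣ U := fun j => Finset.dvd_prod_of_mem Mb (Finset.mem_univ j)
  have hUP : ∀ l, IsCoprime U (P l) := by
    intro l
    refine IsCoprime.prod_left fun j _ => ?_
    exact ((hP l).2.1.coprime_iff_not_dvd.2 (hPMb l j)).symm
  have hPP : ∀ i j, i ≠ j → IsCoprime (P i) (P j) := by
    intro i j hij
    refine (hP i).2.1.coprime_iff_not_dvd.2 fun h => hij (hPinj ?_)
    have := (hP i).2.1.associated_of_dvd (hP j).2.1 h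
    exact eq_of_monic_of_associated (hP i).1 (hP j).1 this
  obtain ⟨h₀, hh₀⟩ := hAVD K n A b G₀ U hb hUm.ne_zero hQ
  choose y hy using fun j : Fin n => (show ∃ y : Bool → K[X], ∀ t, ¬ P j ∣ y t ∧
      (P j ∣ tr2 (m * (P j).natDegree) (y t) ↔ t = false) by
    obtain ⟨⟨y0, h0, h0'⟩, ⟨y1, h1, h1'⟩⟩ := hETA K m hm (P j) (hP j).2.1 (hP j).2.2.1
    refine ⟨fun t => if t then y1 else y0, fun t => ?_⟩
    cases t
    · exact ⟨h0, by simpa using h0'⟩
    · exact ⟨h1, by simpa using h1'⟩)
  choose x hx using fun (j : Fin n) (t : Bool) => (show ∃ x : K[X], P j ∣ x * y j t - 1 by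
    obtain ⟨a, c, hac⟩ := (hP j).2.1.coprime_iff_not_dvd.2 (hy j t).1
    exact ⟨c, ⟨-a, by linear_combination hac⟩⟩)
  choose H hHU hHP using fun t : Fin n → Bool =>
    exists_class n U P hUP hPP h₀ (fun j => x j (t j))
  set R : K[X] := U * ∏ j, P j with hRd
  have hRm : R.Monic := hUm.mul (monic_prod_of_monic _ _ fun j _ => (hP j).1)
  have hUR : U ∣ R := Dvd.intro _ rfl
  have hPR : ∀ j, P j ∣ R := fun j =>
    (Finset.dvd_prod_of_mem P (Finset.mem_univ j)).trans (Dvd.intro_left _ rfl)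
  have hcl : ∀ t h, R ∣ h - H t → U ∣ h - h₀ ∧ ∀ j, P j ∣ h * y j (t j) - 1 := by
    intro t h hR
    refine ⟨?_, fun j => ?_⟩
    · have := dvd_add (hUR.trans hR) (hHU t)
      have e : h - h₀ = h - H t + (H t - h₀) := by ring
      rw [e]; exact this
    · have h1 := dvd_add ((hPR j).trans hR) (hHP t j)
      have e : h * y j (t j) - 1 = (h - H t + (H t - x j (t j))) * y j (t j) +
          (x j (t j) * y j (t j) - 1) := by ring
      rw [e]; exact dvd_add (h1.mul_right _) (hx j (t j))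
  have hL : ∀ h : K[X], ∀ j, A j * derivative (A j * (G₀ + h ^ 8) + C (b j)) -
      derivative (A j) * (A j * (G₀ + h ^ 8) + C (b j)) =
      (A j) ^ 2 * derivative G₀ - C (b j) * derivative (A j) := by
    intro h j
    have h8 : (8 : K[X]) = 0 := by
      have : (8 : K[X]) = 2 * 4 := by norm_num
      rw [this, h2X, zero_mul]
    have hd : derivative (h ^ 8) = 8 * (h ^ 7 * derivative h) := by
      rw [derivative_pow]
      have e : (C ((8 : ℕ) : K) : K[X]) = 8 := by rw [map_natCast, Nat.cast_ofNat]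
      rw [e]; norm_num; ring
    simp only [derivative_add, derivative_mul, derivative_C, hd, h8]
    ring
  have hdP : ∀ h : K[X], ∀ j, P j ∣ (A j * (G₀ + h ^ 8) + C (b j)) - A j * h ^ 8 := by
    intro h j
    obtain ⟨k, hk⟩ := hd0 j
    have h1 := congrArg (Polynomial.map (red K)) hk
    simp only [Polynomial.map_mul, map_C, Polynomial.map_add, hAt, hϖ, hbt] at h1
    refine ⟨k.map (red K), ?_⟩
    rw [← h1]; ring
  have hsq : ∀ t h, R ∣ h - H t → ∀ j, Squarefree (A j * (G₀ + h ^ 8) + C (b j)) := by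
    intro t h hR j
    obtain ⟨hU, hPy⟩ := hcl t h hR
    refine squarefree_of (hL h j) ?_
    rw [hMeq' j]
    have c1 : IsCoprime (Mb j) (A j * (G₀ + h ^ 8) + C (b j)) :=
      (hh₀ h hU j).of_isCoprime_of_dvd_left (hMbU j)
    have c2 : IsCoprime (P j) (A j * (G₀ + h ^ 8) + C (b j)) := by
      refine (hP j).2.1.coprime_iff_not_dvd.2 fun hd => ?_
      have h1 : P j ∣ A j * h ^ 8 := by
        have := dvd_sub hd (hdP h j)
        simpa using this
      rcases (hPprime j).dvd_or_dvd h1 with h2 | h2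
      · exact hPA j j h2
      · have h3 := (hPprime j).dvd_of_dvd_pow h2
        have h4 := dvd_sub (h3.mul_right (y j (t j))) (hPy j)
        have h5 : P j ∣ 1 := by simpa using h4
        exact (hPprime j).not_isUnit (isUnit_of_dvd_one h5)
    have c3 : IsCoprime (C (red K (μ j))) (A j * (G₀ + h ^ 8) + C (b j)) := by
      have : IsUnit (C (red K (μ j))) := isUnit_C.2 ((hμ j).map (red K))
      obtain ⟨c, hc⟩ := this.exists_left_inv
      exact ⟨c, 0, by rw [hc]; ring⟩
    exact c3.mul_left ((c2.mul_left c2).mul_left c1)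
  have hcmp : ∀ t t' h h', h.Monic → h'.Monic → G₀.natDegree < 8 * h.natDegree →
      G₀.natDegree < 8 * h'.natDegree → R ∣ h - H t → R ∣ h' - H t' → ∀ j,
      (lam (A j * (G₀ + h ^ 8) + C (b j)) = lam (A j * (G₀ + h' ^ 8) + C (b j)) ↔ t j = t' j) := by
    intro t t' h h' hm1 hm2 hd1 hd2 hR hR' j
    obtain ⟨hU, hPy⟩ := hcl t h hR
    obtain ⟨hU', hPy'⟩ := hcl t' h' hR'
    have hGd' : G₀.natDegree = G.natDegree := hGm.natDegree_map _
    have key := hTOG K m hm (At j) G (ϖ j) (Mr j) (bt j) (μ j) (hAtm j) (hϖm j) (hMrm j) (hbtu j)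
      (hμ j) (by rw [hϖ]; exact (hP j).2.1) (hMeq j) (hd0 j) (hd4 j) h h' (y j (t j)) (y j (t' j))
      hm1 hm2 (by rw [← hGd']; exact hd1) (by rw [← hGd']; exact hd2)
      (by
        have h1 := (hMbU j).trans (dvd_sub hU hU')
        have e : h - h' = h - h₀ - (h' - h₀) := by ring
        rw [e]; exact h1)
      (by rw [hϖ]; exact hPy j) (by rw [hϖ]; exact hPy' j)
      (by rw [hAt, hbt]; exact hsq t h hR j) (by rw [hAt, hbt]; exact hsq t' h' hR' j)
    rw [hAt, hbt, hϖ, hϖd] at key
    rw [key, tr2_add]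
    have p1 := (hy j (t j)).2
    have p2 := (hy j (t' j)).2
    constructor
    · intro hd
      have q : P j ∣ tr2 (m * (P j).natDegree) (y j (t j)) ↔
          P j ∣ tr2 (m * (P j).natDegree) (y j (t' j)) := by
        constructor
        · intro h1
          have := dvd_sub hd h1
          simpa using this
        · intro h1
          have := dvd_sub hd h1
          simpa using this
      rw [p1, p2] at q
      cases h1 : t j <;> cases h2 : t' j
      · rfl
      · rw [h1, h2] at q; exact absurd (q.1 rfl) (by decide)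
      · rw [h1, h2] at q; exact absurd (q.2 rfl) (by decide)
      · rfl
    · intro he
      rw [he]
      have : tr2 (m * (P j).natDegree) (y j (t' j)) + tr2 (m * (P j).natDegree) (y j (t' j)) =
          2 * tr2 (m * (P j).natDegree) (y j (t' j)) := by ring
      rw [this, h2X, zero_mul]
      exact dvd_zero _
  -- a reference polynomial
  obtain ⟨hr, hrm, hrd, hrR⟩ : ∃ h : K[X], h.Monic ∧ G₀.natDegree < 8 * h.natDegree ∧
      R ∣ h - H (fun _ => false) := by
    set k := (H (fun _ => false)).natDegree + G₀.natDegree + 1 with hk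
    have hm1 : (R * X ^ k).Monic := hRm.mul (monic_X_pow k)
    have hd1 : (R * X ^ k).natDegree = R.natDegree + k := by
      rw [hRm.natDegree_mul (monic_X_pow k), natDegree_X_pow]
    have hlt : (H (fun _ => false)).degree < (R * X ^ k).degree := by
      apply degree_lt_degree
      rw [hd1]; omega
    refine ⟨H (fun _ => false) + R * X ^ k, hm1.add_of_right hlt, ?_, ⟨X ^ k, by ring⟩⟩
    rw [natDegree_add_eq_right_of_degree_lt hlt, hd1]
    omega
  set t : Fin n → Bool := fun j =>
    if lam (A j * (G₀ + hr ^ 8) + C (b j)) = ε j then false else true with ht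
  refine ⟨G₀, R, H t, hRm, fun h hm1 hR hd1 j => ⟨(hsq t h hR j).ne_zero, ?_⟩⟩
  have key := hcmp t (fun _ => false) h hr hm1 hrm hd1 hrd hR hrR j
  have e1 := lam_pm (A j * (G₀ + h ^ 8) + C (b j))
  have e2 := lam_pm (A j * (G₀ + hr ^ 8) + C (b j))
  have e3 := hε j
  by_cases hc : lam (A j * (G₀ + hr ^ 8) + C (b j)) = ε j
  · have : t j = false := by rw [ht]; simp [hc]
    rw [← hc]
    exact key.2 this
  · have h1 : t j ≠ false := by rw [ht]; simp [hc]
    have h2 : lam (A j * (G₀ + h ^ 8) + C (b j)) ≠ lam (A j * (G₀ + hr ^ 8) + C (b j)) :=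
      fun h => h1 (key.1 h)
    clear_value t
    rcases e1 with e1 | e1 <;> rcases e2 with e2 | e2 <;> rcases e3 with e3 | e3
    · exact absurd (e1.trans e2.symm) h2
    · exact absurd (e1.trans e2.symm) h2
    · rw [e1, e3]
    · exact absurd (e2.trans e3.symm) hc
    · exact absurd (e2.trans e3.symm) hc
    · rw [e1, e3]
    · exact absurd (e1.trans e2.symm) h2
    · exact absurd (e1.trans e2.symm) h2

end Pool.Agent.Helper95.C2.CORE2
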