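import Pool.Graph.R_pool_sql_team_seeded_f72693b1.W269.BL.Stm

set_option autoImplicit false

/-!
# Swarm C2: sign patterns of the Liouville function of `K[X]`, `K` a finite field of characteristic two

Definitions and the base lemmas (resultants over commutative rings, the ring `S8 K = W(K) / 8`).
-/

open Polynomial

namespace Pool.Agent.Helper95.C2

universe u

/-- The Liouville function of `K[X]` (library). -/
noncomputable abbrev lam {K : Type u} [Field K] (F : K[X]) : ℤ := Pool.Agent.W269.BL.lam F

/-- The resultant with the natural degrees. -/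
noncomputable def rs {S : Type u} [CommRing S] (f g : S[X]) : S :=
  resultant f g f.natDegree g.natDegree

/-- The discriminant of a monic polynomial. -/
noncomputable def dsc {S : Type u} [CommRing S] (f : S[X]) : S :=
  (-1) ^ (f.natDegree * (f.natDegree - 1) / 2) * rs f (derivative f)

/-- The trace-like sum `u + u^2 + u^4 + ... + u^(2^(m-1))`. -/
noncomputable def tr2 {R : Type u} [CommRing R] (m : ℕ) (u : R) : R :=
  ∑ i ∈ Finset.range m, u ^ 2 ^ i

section rs
variable {S : Type u} [CommRing S]

lemma rs_eq_of_le {f g : S[X]} (hf : f.Monic) {n : ℕ} (hn : g.natDegree ≤ n) :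
    resultant f g f.natDegree n = rs f g := by
  obtain ⟨k, rfl⟩ := le_iff_exists_add.mp hn
  rw [resultant_add_right_deg _ _ _ _ k le_rfl]
  simp [rs, hf.leadingCoeff]

/-- the resultant with a monic `f` depends on `g` modulo `f` only -/
lemma rs_add_mul {f : S[X]} (hf : f.Monic) (g k : S[X]) : rs f (g + f * k) = rs f g := by
  set n := max (g.natDegree) (k.natDegree + f.natDegree) with hn
  have h1 : g.natDegree ≤ n := le_max_left _ _
  have h2 : k.natDegree + f.natDegree ≤ n := le_max_right _ _
  have h3 : (g + f * k).natDegree ≤ n := by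
    refine (natDegree_add_le _ _).trans (max_le h1 ?_)
    exact (natDegree_mul_le).trans (by omega)
  rw [← rs_eq_of_le hf h1, ← rs_eq_of_le hf h3, resultant_add_mul_right _ _ _ _ _ h2 le_rfl]

lemma rs_congr {f : S[X]} (hf : f.Monic) {g g' : S[X]} (h : f ∣ g - g') : rs f g = rs f g' := by
  obtain ⟨k, hk⟩ := h
  have : g = g' + f * k := by rw [← hk]; ring
  rw [this, rs_add_mul hf]

lemma rs_mul_right {f : S[X]} (hf : f.Monic) (g h : S[X]) : rs f (g * h) = rs f g * rs f h := by
  rw [← rs_eq_of_le hf (natDegree_mul_le (p := g) (q := h)), resultant_mul_right _ _ _ _ le_rfl]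
  rfl

lemma rs_one {f : S[X]} : rs f 1 = 1 := by
  rw [rs, natDegree_one, ← C_1, resultant_C_zero_right, one_pow]

lemma rs_C {f : S[X]} (b : S) : rs f (C b) = b ^ f.natDegree := by
  rw [rs, natDegree_C, resultant_C_zero_right]

lemma rs_pow_right {f : S[X]} (hf : f.Monic) (g : S[X]) (k : ℕ) : rs f (g ^ k) = rs f g ^ k := by
  induction k with
  | zero => rw [pow_zero, pow_zero, rs_one]
  | succ k ih => rw [pow_succ, pow_succ, rs_mul_right hf, ih]

lemma rs_mul_left {f g : S[X]} (hf : f.Monic) (hg : g.Monic) (h : S[X]) :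
    rs (f * g) h = rs f h * rs g h := by
  rw [rs, hf.natDegree_mul hg, resultant_mul_left _ _ _ _ le_rfl]
  rfl

lemma rs_comm (f g : S[X]) : rs f g = (-1) ^ (f.natDegree * g.natDegree) * rs g f := by
  rw [rs, rs, resultant_comm]

lemma isUnit_rs_iff {f : S[X]} (hf : f.Monic) (g : S[X]) : IsUnit (rs f g) ↔ IsCoprime f g :=
  isUnit_resultant_iff_isCoprime hf

lemma map_rs {S' : Type u} [CommRing S'] [Nontrivial S'] (φ : S →+* S') {f : S[X]} (hf : f.Monic)
    (g : S[X]) : φ (rs f g) = rs (f.map φ) (g.map φ) := by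
  have h1 : (f.map φ).natDegree = f.natDegree := hf.natDegree_map φ
  rw [← rs_eq_of_le (hf.map φ) (natDegree_map_le (f := φ) (p := g)), h1, resultant_map_map]
  rfl

lemma map_dsc {S' : Type u} [CommRing S'] [Nontrivial S'] (φ : S →+* S') {f : S[X]}
    (hf : f.Monic) : φ (dsc f) = dsc (f.map φ) := by
  unfold dsc
  rw [map_mul, map_rs φ hf, derivative_map, hf.natDegree_map φ]
  simp

end rs

/-- `W(K) / 8` -/
abbrev S8 (K : Type u) [CommRing K] : Type u :=
  WittVector 2 K ⧸ Ideal.span {(8 : WittVector 2 K)}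

/-- the quotient map `W(K) → W(K) / 8` -/
noncomputable abbrev q8 (K : Type u) [CommRing K] : WittVector 2 K →+* S8 K :=
  Ideal.Quotient.mk _

/-- the residue map `W(K) → K` -/
noncomputable abbrev cc (K : Type u) [CommRing K] : WittVector 2 K →+* K :=
  WittVector.constantCoeff

/-- the residue map `W(K) / 8 → K` -/
noncomputable def red (K : Type u) [CommRing K] [CharP K 2] : S8 K →+* K :=
  Ideal.Quotient.lift (Ideal.span {(8 : WittVector 2 K)}) (cc K) (by
    intro a ha
    obtain ⟨b, rfl⟩ := Ideal.mem_span_singleton.1 ha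
    have h2 : (2 : K) = 0 := CharP.cast_eq_zero K 2
    rw [map_mul, map_ofNat]
    have h8 : (OfNat.ofNat 8 : K) = 2 * 4 := by norm_num
    rw [h8, h2]
    simp)

section S8
variable (K : Type u) [Field K] [CharP K 2]

@[simp] lemma red_q8 (x : WittVector 2 K) : red K (q8 K x) = cc K x := rfl

lemma red_comp_q8 : (red K).comp (q8 K) = cc K := rfl

omit [CharP K 2] in
lemma q8_surjective : Function.Surjective (q8 K) := Ideal.Quotient.mk_surjective

omit [CharP K 2] in
lemma cc_surjective : Function.Surjective (cc K) := WittVector.constantCoeff_surjective 2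

lemma red_surjective : Function.Surjective (red K) := by
  intro x
  obtain ⟨y, hy⟩ := cc_surjective K x
  exact ⟨q8 K y, hy⟩

omit [CharP K 2] in
lemma eight_S8 : (8 : S8 K) = 0 := by
  have : (8 : S8 K) = q8 K 8 := by rw [map_ofNat]
  rw [this]
  exact Ideal.Quotient.eq_zero_iff_mem.2 (Ideal.mem_span_singleton_self _)

lemma cc_eq_zero_iff [PerfectRing K 2] (x : WittVector 2 K) : cc K x = 0 ↔ (2 : WittVector 2 K) ∣ x := by
  have := WittVector.mem_span_p_iff_coeff_zero_eq_zero (p := 2) x
  rw [Ideal.mem_span_singleton] at this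
  exact this.symm

lemma red_eq_zero_iff [PerfectRing K 2] (x : S8 K) : red K x = 0 ↔ (2 : S8 K) ∣ x := by
  obtain ⟨y, rfl⟩ := q8_surjective K x
  rw [red_q8, cc_eq_zero_iff]
  constructor
  · rintro ⟨z, rfl⟩
    exact ⟨q8 K z, by rw [map_mul, map_ofNat]⟩
  · rintro ⟨z, hz⟩
    have h := congrArg (red K) hz
    rw [red_q8, map_mul, map_ofNat] at h
    have h2 : (OfNat.ofNat 2 : K) = 0 := CharP.cast_eq_zero K 2
    rw [h2, zero_mul, cc_eq_zero_iff] at h
    exact h

instance : Nontrivial (S8 K) := (red K).domain_nontrivial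

end S8

end Pool.Agent.Helper95.C2
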