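import Pool.Agent.Helper95.C2.Defs

set_option autoImplicit false

/-!
# Swarm C2: statements of the parts

`K` is a finite field of characteristic two with `2 ^ m` elements, `W(K) = WittVector 2 K`,
`S8 K = W(K) / 8`, `cc K : W(K) → K` and `red K : S8 K → K` the residue maps.
-/

open Polynomial

namespace Pool.Agent.Helper95.C2

universe u

/-- HEN: a monic polynomial over `W(Ω)` with separable reduction splits, with distinct residues of
the roots. -/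
def S_HEN : Prop :=
  ∀ (Ω : Type u) [Field Ω] [IsAlgClosed Ω] [CharP Ω 2] (f : (WittVector 2 Ω)[X]), f.Monic →
    (f.map (cc Ω)).Separable →
    ∃ a : Fin f.natDegree → WittVector 2 Ω, f = ∏ i, (X - C (a i)) ∧
      Function.Injective (fun i => cc Ω (a i))

/-- SGN: the sign of the Frobenius permutation of the roots. -/
def S_SGN : Prop :=
  ∀ (K Ω : Type u) [Field K] [Fintype K] [Field Ω] [Algebra K Ω] (f : K[X]) (N : ℕ)
    (α : Fin N → Ω) (σ : Equiv.Perm (Fin N)), f.Monic → Function.Injective α →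
    f.map (algebraMap K Ω) = ∏ i, (X - C (α i)) →
    (∀ i, α i ^ Fintype.card K = α (σ i)) →
    ((Equiv.Perm.sign σ : ℤˣ) : ℤ) = (-1) ^ N * lam f

/-- The lift of `x ↦ x ^ (2 ^ m)` to the Witt vectors. -/
noncomputable def Phi (Ω : Type u) [Field Ω] [CharP Ω 2] (m : ℕ) :
    WittVector 2 Ω →+* WittVector 2 Ω :=
  WittVector.map (iterateFrobenius Ω 2 m)

/-- FRB: a square root of the discriminant in `W` of the algebraic closure, and the Frobenius. -/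
def S_FRB : Prop :=
  ∀ (K : Type u) [Field K] [Fintype K] [CharP K 2] (m : ℕ), Fintype.card K = 2 ^ m →
    ∀ f : (WittVector 2 K)[X], f.Monic → Squarefree (f.map (cc K)) →
    ∃ δ : WittVector 2 (AlgebraicClosure K), IsUnit δ ∧
      δ ^ 2 = WittVector.map (algebraMap K (AlgebraicClosure K)) (dsc f) ∧
      Phi (AlgebraicClosure K) m δ =
        (((-1) ^ f.natDegree * lam (f.map (cc K)) : ℤ) : WittVector 2 (AlgebraicClosure K)) * δ

/-- PAR: comparison of the Liouville values of the reductions of `f` and `g`. -/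
def S_PAR : Prop :=
  ∀ (K : Type u) [Field K] [Fintype K] [CharP K 2] (m : ℕ), Fintype.card K = 2 ^ m →
    ∀ (f g : (WittVector 2 K)[X]) (ρ z : WittVector 2 K), f.Monic → g.Monic →
    Squarefree (f.map (cc K)) → Squarefree (g.map (cc K)) → IsUnit ρ →
    (8 : WittVector 2 K) ∣ dsc f - ρ ^ 2 * (1 + 4 * z) * dsc g →
    f.natDegree % 2 = g.natDegree % 2 →
    (lam (f.map (cc K)) = lam (g.map (cc K)) ↔ tr2 m (cc K z) = 0)

/-- TRC: `Res (f, 1 + 4 y)` modulo `8` and the trace. -/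
def S_TRC : Prop :=
  ∀ (K : Type u) [Field K] [Fintype K] [CharP K 2] (m : ℕ), Fintype.card K = 2 ^ m →
    ∀ f y : (WittVector 2 K)[X], f.Monic → Irreducible (f.map (cc K)) →
    ∃ z : WittVector 2 K, (8 : WittVector 2 K) ∣ rs f (1 + 4 * y) - (1 + 4 * z) ∧
      (tr2 m (cc K z) = 0 ↔ f.map (cc K) ∣ tr2 (m * f.natDegree) (y.map (cc K)))

/-- NRM: the discriminant of `A (G + h^8) + b` modulo `8`. -/
def S_NRM : Prop :=
  ∀ (S : Type u) [CommRing S] [Nontrivial S], (8 : S) = 0 →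
    ∀ (A G M : S[X]) (b μ : S), A.Monic → M.Monic → IsUnit b → IsUnit μ →
    A ^ 2 * derivative G - C b * derivative A = C μ * M →
    ∃ κ : S, ∀ h : S[X], h.Monic → G.natDegree < 8 * h.natDegree →
      dsc (A * (G + h ^ 8) + C b) =
        κ * (μ ^ h.natDegree) ^ 8 * rs M (A * (G + h ^ 8) + C b)

/-- CNG: `Res (Mr, A (G + h^8) + b)` modulo `8` depends on `h` modulo `(2, Mr)` only. -/
def S_CNG : Prop :=
  ∀ (S : Type u) [CommRing S], (8 : S) = 0 →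
    ∀ (A G Mr : S[X]) (b : S) (h₁ h₂ : S[X]), Mr.Monic →
    (∃ x y : S[X], h₁ - h₂ = Mr * x + 2 * y) →
    rs Mr (A * (G + h₁ ^ 8) + C b) = rs Mr (A * (G + h₂ ^ 8) + C b)

/-- VAR: the resultant at a special prime. -/
def S_VAR : Prop :=
  ∀ (S : Type u) [CommRing S] [Nontrivial S] (A G ϖ : S[X]) (b : S), ϖ.Monic →
    0 < ϖ.natDegree → ϖ ∣ A * G + C b → (ϖ + 2) ∣ A * G + C b - 4 * A →
    ∀ h y : S[X], (ϖ + 2) ∣ h * y - 1 →
    rs (ϖ * (ϖ + 2)) (A * (G + h ^ 8) + C b) =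
      rs (ϖ * (ϖ + 2)) A * (rs (ϖ * (ϖ + 2)) h) ^ 8 * rs (ϖ + 2) (1 + 4 * y ^ 8)

/-- TOG: toggling the Liouville function at a special prime. -/
def S_TOG : Prop :=
  ∀ (K : Type u) [Field K] [Fintype K] [CharP K 2] (m : ℕ), Fintype.card K = 2 ^ m →
    ∀ (A G ϖ Mr : (S8 K)[X]) (b μ : S8 K), A.Monic → ϖ.Monic → Mr.Monic → IsUnit b → IsUnit μ →
    Irreducible (ϖ.map (red K)) →
    A ^ 2 * derivative G - C b * derivative A = C μ * (ϖ * (ϖ + 2) * Mr) →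
    ϖ ∣ A * G + C b → (ϖ + 2) ∣ A * G + C b - 4 * A →
    ∀ h₁ h₂ y₁ y₂ : K[X], h₁.Monic → h₂.Monic →
    G.natDegree < 8 * h₁.natDegree → G.natDegree < 8 * h₂.natDegree →
    Mr.map (red K) ∣ h₁ - h₂ →
    ϖ.map (red K) ∣ h₁ * y₁ - 1 → ϖ.map (red K) ∣ h₂ * y₂ - 1 →
    Squarefree (A.map (red K) * (G.map (red K) + h₁ ^ 8) + C (red K b)) →
    Squarefree (A.map (red K) * (G.map (red K) + h₂ ^ 8) + C (red K b)) →
    (lam (A.map (red K) * (G.map (red K) + h₁ ^ 8) + C (red K b)) =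
        lam (A.map (red K) * (G.map (red K) + h₂ ^ 8) + C (red K b)) ↔
      ϖ.map (red K) ∣ tr2 (m * ϖ.natDegree) (y₁ + y₂))

/-- CRT: choice of `G` modulo `8`. -/
def S_CRT : Prop :=
  ∀ (S K : Type u) [CommRing S] [Field K] (π : S →+* K), Function.Surjective π → (8 : S) = 0 →
    (∀ x, π x = 0 → (2 : S) ∣ x) →
    ∀ (n : ℕ) (A ϖ : Fin n → S[X]) (b : Fin n → S), (∀ j, (ϖ j).Monic) →
    (∀ j, Irreducible ((ϖ j).map π)) → (∀ i j, i ≠ j → (ϖ i).map π ≠ (ϖ j).map π) →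
    (∀ j, ¬ (ϖ j).map π ∣ (A j).map π) →
    ∀ d : ℕ, ∃ G : S[X], G.Monic ∧ d ≤ G.natDegree ∧ Odd G.natDegree ∧
      ∀ j, (ϖ j * (ϖ j + 2)) ^ 2 ∣ A j * G + C (b j) - A j * ((ϖ j) ^ 3 + 3 * (ϖ j) ^ 2)

/-- MST: the structure of `M = A^2 G' - b A'` at a special prime. -/
def S_MST : Prop :=
  ∀ (S K : Type u) [CommRing S] [Field K] [Finite K] [CharP K 2] (π : S →+* K), (8 : S) = 0 →
    ∀ (A G ϖ : S[X]) (b : S), A.Monic → G.Monic → Odd G.natDegree → ϖ.Monic →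
    Irreducible (ϖ.map π) → ¬ ϖ.map π ∣ A.map π →
    (ϖ * (ϖ + 2)) ^ 2 ∣ A * G + C b - A * (ϖ ^ 3 + 3 * ϖ ^ 2) →
    ∃ (μ : S) (Mr : S[X]), IsUnit μ ∧ Mr.Monic ∧
      A ^ 2 * derivative G - C b * derivative A = C μ * (ϖ * (ϖ + 2) * Mr) ∧
      ϖ ∣ A * G + C b ∧ (ϖ + 2) ∣ A * G + C b - 4 * A ∧ ¬ ϖ.map π ∣ Mr.map π

/-- AVD: a class of `h` modulo `U` for which all the values are prime to `U`. -/
def S_AVD : Prop :=
  ∀ (K : Type u) [Field K] [Fintype K] [CharP K 2] (n : ℕ) (A : Fin n → K[X]) (b : Fin n → K)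
    (G U : K[X]), (∀ j, b j ≠ 0) → U ≠ 0 →
    (∀ Q : K[X], Irreducible Q → Fintype.card K ^ Q.natDegree ≤ n → ∀ j, Q ∣ A j) →
    ∃ h₀ : K[X], ∀ h : K[X], U ∣ h - h₀ →
      ∀ j, IsCoprime U (A j * (G + h ^ 8) + C (b j))

/-- IRR: special primes. -/
def S_IRR : Prop :=
  ∀ (K : Type u) [Field K] [Fintype K] (n : ℕ) (V : K[X]), V ≠ 0 →
    ∃ P : Fin n → K[X], (∀ j, (P j).Monic ∧ Irreducible (P j) ∧ 2 ≤ (P j).natDegree ∧
      ¬ P j ∣ V) ∧ Function.Injective P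

/-- ETA: both values of the trace occur modulo an irreducible polynomial of degree at least 2, at
classes which are not zero. -/
def S_ETA : Prop :=
  ∀ (K : Type u) [Field K] [Fintype K] [CharP K 2] (m : ℕ), Fintype.card K = 2 ^ m →
    ∀ P : K[X], Irreducible P → 2 ≤ P.natDegree →
    (∃ y : K[X], ¬ P ∣ y ∧ P ∣ tr2 (m * P.natDegree) y) ∧
    (∃ y : K[X], ¬ P ∣ y ∧ ¬ P ∣ tr2 (m * P.natDegree) y)

/-- CORE2: the sign patterns along the forms `A j * G + b j`. -/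
def S_CORE2 : Prop :=
  ∀ (K : Type u) [Field K] [Fintype K] [CharP K 2] (n : ℕ) (A : Fin n → K[X]) (b : Fin n → K)
    (ε : Fin n → ℤ), (∀ j, (A j).Monic) → (∀ j, b j ≠ 0) →
    (∀ i j, i ≠ j →
      C (b j) * derivative (A j) * (A i) ^ 2 ≠ C (b i) * derivative (A i) * (A j) ^ 2) →
    (∀ Q : K[X], Irreducible Q → Fintype.card K ^ Q.natDegree ≤ n → ∀ j, Q ∣ A j) →
    (∀ j, ε j = 1 ∨ ε j = -1) →
    ∃ G₀ S h₀ : K[X], S.Monic ∧ ∀ h : K[X], h.Monic → S ∣ h - h₀ →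
      G₀.natDegree < 8 * h.natDegree →
      ∀ j, A j * (G₀ + h ^ 8) + C (b j) ≠ 0 ∧ lam (A j * (G₀ + h ^ 8) + C (b j)) = ε j

/-- MAIN2: all sign patterns for arbitrary pairwise non-proportional linear forms. -/
def S_MAIN2 : Prop :=
  ∀ (K : Type u) [Field K] [Fintype K] [CharP K 2] (n : ℕ) (A B : Fin n → K[X]),
    (∀ j, A j ≠ 0) → (∀ i j, i ≠ j → A i * B j ≠ A j * B i) →
    ∀ ε : Fin n → ℤ, (∀ j, ε j = 1 ∨ ε j = -1) →
    ∃ r : ℕ, ∀ N m : ℕ, 8 * (m + r) ≤ N →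
      Fintype.card K ^ m ≤ {F : K[X] | F.Monic ∧ F.natDegree = N ∧
        ∀ j, A j * F + B j ≠ 0 ∧ lam (A j * F + B j) = ε j}.ncard

/-- ENUM2: consecutive polynomials in the lexicographic enumeration `phi e`. -/
def S_ENUM2 : Prop :=
  ∀ (K : Type u) [Field K] [Fintype K] [CharP K 2],
    ∀ e : Fin (Fintype.card K) ≃ K, e ⟨0, Fintype.card_pos⟩ = 0 →
    ∀ (n : ℕ) (ε : Fin n → ℤ), (∀ j, ε j = 1 ∨ ε j = -1) → ∀ M : ℕ,
      ∃ m : ℕ, M ≤ m ∧ ∀ j : Fin n, lam (Pool.Agent.W269.BL.phi e (m + 1 + j)) = ε j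

end Pool.Agent.Helper95.C2
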